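import Mathlib
import Pool.Agent.Helper949.Landau

/-!
# The differences `z - y` in `x ^ 4 + y ^ 4 + 64 = z ^ 4`

In every solution `z` is odd and exactly one of `x`, `y` is even; no prime `p ≡ 3 (mod 4)` divides
`z ^ 4 - x ^ 4` or `z ^ 4 - y ^ 4` (because `s ^ 4 + 64 = ((s + 2) ^ 2 + 4) * ((s - 2) ^ 2 + 4)`);
if `y` is even then `z - y` and `z + y` are `1` modulo `4`, and if `y` is odd then `z - y` is `2`
modulo `4`, `4` modulo `8` or `16` modulo `32`. Hence there are at most `K N / √(1 + log N)` numbers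
up to `N` which are a difference `z - y` in a solution.
-/

namespace Pool.Agent.Results.MP_020c25_nt.Differences

lemma prime_ne {x p : ℕ} (hp : p.Prime) (h : p ∣ x ^ 4 + 64) : p % 4 ≠ 3 := by
  have := Fact.mk hp
  by_cases h2 : p = 2
  · subst h2; decide
  have h3 : ((x : ZMod p) ^ 4 + 64) = 0 := by
    have := (ZMod.natCast_eq_zero_iff (x ^ 4 + 64) p).2 h
    push_cast at this
    exact this
  have h4 : (((x : ZMod p) + 2) ^ 2 + 2 ^ 2) * (((x : ZMod p) - 2) ^ 2 + 2 ^ 2) = 0 := by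
    linear_combination h3
  have hne : (2 : ZMod p) ≠ 0 := by
    intro h5
    have h6 : ((2 : ℕ) : ZMod p) = 0 := by exact_mod_cast h5
    rw [ZMod.natCast_eq_zero_iff] at h6
    exact h2 ((Nat.prime_dvd_prime_iff_eq hp Nat.prime_two).1 h6)
  rcases mul_eq_zero.1 h4 with h5 | h5
  · exact ZMod.mod_four_ne_three_of_sq_eq_neg_sq' hne (eq_neg_of_add_eq_zero_left h5)
  · exact ZMod.mod_four_ne_three_of_sq_eq_neg_sq' hne (eq_neg_of_add_eq_zero_left h5)

lemma mod_four_one (n : ℕ) (ho : n % 2 = 1) (h : ∀ p : ℕ, p.Prime → p ∣ n → p % 4 ≠ 3) :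
    n % 4 = 1 := by
  induction n using Nat.strong_induction_on with
  | _ n ih =>
    by_cases h1 : n = 1
    · subst h1; rfl
    obtain ⟨m, hm⟩ := Nat.minFac_dvd n
    have hp : n.minFac.Prime := Nat.minFac_prime h1
    have hp2 := h _ hp (Nat.minFac_dvd n)
    have hpo : n.minFac % 2 = 1 := by
      by_contra hc
      have h2 : 2 ∣ n.minFac := by omega
      have := h2.trans (Nat.minFac_dvd n)
      omega
    have hp4 : n.minFac % 4 = 1 := by omega
    have hmo : m % 2 = 1 := by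
      by_contra hc
      have h2 : 2 ∣ m := by omega
      have : 2 ∣ n := by rw [hm]; exact h2.mul_left _
      omega
    have hmn : m < n := by
      have h0 : 0 < m := by omega
      have := hp.two_le
      nlinarith
    have hm4 := ih m hmn hmo (fun p hpp hd => h p hpp (by rw [hm]; exact hd.mul_left _))
    rw [hm, Nat.mul_mod, hp4, hm4]

lemma pow_even {x : ℕ} (h : x % 2 = 0) : x ^ 4 % 16 = 0 := by
  obtain ⟨k, rfl⟩ : ∃ k, x = 2 * k := ⟨x / 2, by omega⟩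
  rw [show (2 * k) ^ 4 = 16 * k ^ 4 by ring]
  omega

lemma pow_odd {x : ℕ} (h : x % 2 = 1) : x ^ 4 % 16 = 1 := by
  rw [Nat.pow_mod]
  have h1 : x % 16 < 16 := Nat.mod_lt _ (by norm_num)
  have h2 : (x % 16) % 2 = 1 := by omega
  interval_cases (x % 16) <;> simp_all

lemma parity {x y z : ℕ} (h : x ^ 4 + y ^ 4 + 64 = z ^ 4) :
    z % 2 = 1 ∧ (x % 2 = 0 ↔ y % 2 = 1) := by
  rcases Nat.mod_two_eq_zero_or_one x with hx | hx <;>
  rcases Nat.mod_two_eq_zero_or_one y with hy | hy <;>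
  rcases Nat.mod_two_eq_zero_or_one z with hz | hz
  · exfalso
    obtain ⟨a, rfl⟩ : ∃ k, x = 2 * k := ⟨x / 2, by omega⟩
    obtain ⟨b, rfl⟩ : ∃ k, y = 2 * k := ⟨y / 2, by omega⟩
    obtain ⟨c, rfl⟩ : ∃ k, z = 2 * k := ⟨z / 2, by omega⟩
    have h1 : a ^ 4 + b ^ 4 + 4 = c ^ 4 := by nlinarith
    have ha : a ^ 4 % 16 = 0 ∨ a ^ 4 % 16 = 1 := by
      rcases Nat.mod_two_eq_zero_or_one a with q | q
      · exact Or.inl (pow_even q)
      · exact Or.inr (pow_odd q)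
    have hb : b ^ 4 % 16 = 0 ∨ b ^ 4 % 16 = 1 := by
      rcases Nat.mod_two_eq_zero_or_one b with q | q
      · exact Or.inl (pow_even q)
      · exact Or.inr (pow_odd q)
    have hc : c ^ 4 % 16 = 0 ∨ c ^ 4 % 16 = 1 := by
      rcases Nat.mod_two_eq_zero_or_one c with q | q
      · exact Or.inl (pow_even q)
      · exact Or.inr (pow_odd q)
    omega
  · have a := pow_even hx; have b := pow_even hy; have c := pow_odd hz; omega
  · have a := pow_even hx; have b := pow_odd hy; have c := pow_even hz; omega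
  · exact ⟨hz, by omega⟩
  · have a := pow_odd hx; have b := pow_even hy; have c := pow_even hz; omega
  · exact ⟨hz, by omega⟩
  · have a := pow_odd hx; have b := pow_odd hy; have c := pow_even hz; omega
  · have a := pow_odd hx; have b := pow_odd hy; have c := pow_odd hz; omega

lemma odd_case {x y k : ℕ} (h : x ^ 4 + y ^ 4 + 64 = (y + k) ^ 4) (hy : y % 2 = 1) :
    k % 4 = 2 ∨ k % 8 = 4 ∨ k % 32 = 16 := by
  obtain ⟨hz, hx⟩ := parity h
  obtain ⟨w, rfl⟩ : ∃ w, x = 2 * w := ⟨x / 2, by omega⟩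
  have hw : w ^ 4 % 16 = 0 ∨ w ^ 4 % 16 = 1 := by
    rcases Nat.mod_two_eq_zero_or_one w with q | q
    · exact Or.inl (pow_even q)
    · exact Or.inr (pow_odd q)
  by_contra hc
  have h1 : k % 32 = 0 ∨ k % 16 = 8 := by omega
  rcases h1 with h1 | h1
  · obtain ⟨j, rfl⟩ : ∃ j, k = 32 * j := ⟨k / 32, by omega⟩
    have h2 : w ^ 4 + 4 = 8 * (y ^ 3 * j + 48 * y ^ 2 * j ^ 2 + 1024 * y * j ^ 3
        + 8192 * j ^ 4) := by nlinarith
    omega
  · obtain ⟨j, rfl⟩ : ∃ j, k = 8 * (2 * j + 1) := ⟨k / 16, by omega⟩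
    obtain ⟨i, rfl⟩ : ∃ i, y = 2 * i + 1 := ⟨y / 2, by omega⟩
    have h2 : w ^ 4 + 4 = 2 * ((2 * i + 1) ^ 3 * (2 * j + 1)) +
        24 * ((2 * i + 1) ^ 2 * (2 * j + 1) ^ 2) + 128 * ((2 * i + 1) * (2 * j + 1) ^ 3)
        + 256 * (2 * j + 1) ^ 4 := by nlinarith
    have h3 : ((2 * i + 1) ^ 3 * (2 * j + 1)) % 2 = 1 := by
      rw [Nat.mul_mod, Nat.pow_mod]
      have a : (2 * i + 1) % 2 = 1 := by omega
      have b : (2 * j + 1) % 2 = 1 := by omega
      rw [a, b]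
    omega

theorem conditions (x y z : ℕ) (h : x ^ 4 + y ^ 4 + 64 = z ^ 4) :
    Odd z ∧ (Even x ↔ Odd y) ∧
      (∀ p : ℕ, p.Prime → p ∣ (z ^ 4 - x ^ 4) * (z ^ 4 - y ^ 4) → p % 4 ≠ 3) ∧
      (Even y → (z - y) % 4 = 1 ∧ (z + y) % 4 = 1) ∧
      (Odd y → (z - y) % 4 = 2 ∨ (z - y) % 8 = 4 ∨ (z - y) % 32 = 16) := by
  obtain ⟨hz, hxy⟩ := parity h
  have hyz : y < z := by
    by_contra hc
    have : z ^ 4 ≤ y ^ 4 := Nat.pow_le_pow_left (by omega) 4
    omega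
  have h1 : z ^ 4 - y ^ 4 = x ^ 4 + 64 := by omega
  have h2 : z ^ 4 - x ^ 4 = y ^ 4 + 64 := by omega
  obtain ⟨k, rfl⟩ : ∃ k, z = y + k := ⟨z - y, by omega⟩
  have hk : y + k - y = k := by omega
  have h5 : x ^ 4 + 64 = k * ((y + k + y) * ((y + k) ^ 2 + y ^ 2)) := by nlinarith
  refine ⟨Nat.odd_iff.2 hz, ?_, ?_, ?_, ?_⟩
  · rw [Nat.even_iff, Nat.odd_iff]; exact hxy
  · intro p hp hd
    rw [h1, h2] at hd
    rcases hp.dvd_mul.1 hd with h3 | h3
    · exact prime_ne hp h3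
    · exact prime_ne hp h3
  · intro hy
    rw [Nat.even_iff] at hy
    rw [hk]
    constructor
    · refine mod_four_one k (by omega) fun p hp hd => prime_ne (x := x) hp ?_
      rw [h5]; exact hd.mul_right _
    · refine mod_four_one _ (by omega) fun p hp hd => prime_ne (x := x) hp ?_
      rw [h5]; exact (hd.mul_right _).mul_left _
  · intro hy
    rw [hk]
    exact odd_case h (Nat.odd_iff.1 hy)

lemma diff_two_squares {x y z : ℕ} (h : x ^ 4 + y ^ 4 + 64 = z ^ 4) :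
    0 < z - y ∧ ∃ a b : ℤ, ((z - y : ℕ) : ℤ) = a ^ 2 + b ^ 2 := by
  obtain ⟨-, -, hp, -, -⟩ := conditions x y z h
  have hyz : y < z := by
    by_contra hc
    have : z ^ 4 ≤ y ^ 4 := Nat.pow_le_pow_left (by omega) 4
    omega
  refine ⟨by omega, ?_⟩
  have h1 : ∃ a b : ℕ, z - y = a ^ 2 + b ^ 2 := by
    rw [Nat.eq_sq_add_sq_iff]
    intro q hq h3
    exfalso
    have hq1 := Nat.prime_of_mem_primeFactors hq
    have hq2 := Nat.dvd_of_mem_primeFactors hq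
    refine hp q hq1 ?_ h3
    refine Dvd.dvd.mul_left ?_ _
    exact hq2.trans (Nat.sub_dvd_pow_sub_pow z y 4)
  obtain ⟨a, b, hab⟩ := h1
  exact ⟨a, b, by rw [hab]; push_cast; ring⟩

open Classical in
/-- (1) Conditions on the solutions. (2) Up to `N` there are at most `K N / √(1 + log N)` numbers
which are a difference `z - y` in a solution. -/
theorem result :
    (∀ x y z : ℕ, x ^ 4 + y ^ 4 + 64 = z ^ 4 →
      Odd z ∧ (Even x ↔ Odd y) ∧
      (∀ p : ℕ, p.Prime → p ∣ (z ^ 4 - x ^ 4) * (z ^ 4 - y ^ 4) → p % 4 ≠ 3) ∧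
      (Even y → (z - y) % 4 = 1 ∧ (z + y) % 4 = 1) ∧
      (Odd y → (z - y) % 4 = 2 ∨ (z - y) % 8 = 4 ∨ (z - y) % 32 = 16)) ∧
    ∃ K : ℝ, 0 ≤ K ∧ ∀ N : ℕ, 1 ≤ N →
      (((Finset.Icc 1 N).filter (fun k => ∃ x y z : ℕ, x ^ 4 + y ^ 4 + 64 = z ^ 4 ∧
        z - y = k)).card : ℝ) ≤ K * (N / Real.sqrt (1 + Real.log N)) := by
  refine ⟨conditions, ?_⟩
  obtain ⟨K, hK, hV⟩ := Pool.Agent.Helper949.Landau.V_bound
  refine ⟨K, hK, fun N hN => le_trans ?_ (hV N hN)⟩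
  have hsub : (Finset.Icc 1 N).filter (fun k => ∃ x y z : ℕ, x ^ 4 + y ^ 4 + 64 = z ^ 4 ∧
      z - y = k) ⊆ Pool.Agent.Helper949.Landau.V N := by
    intro t ht
    rw [Finset.mem_filter, Finset.mem_Icc] at ht
    obtain ⟨ht1, x, y, z, h, rfl⟩ := ht
    unfold Pool.Agent.Helper949.Landau.V
    rw [Finset.mem_filter, Finset.mem_Ioc]
    exact ⟨⟨by omega, ht1.2⟩, (diff_two_squares h).2⟩
  exact_mod_cast Finset.card_le_card hsub

end Pool.Agent.Results.MP_020c25_nt.Differences
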